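import Pool.Agent.H741.RS.PubM

set_option autoImplicit false

/-! S_MAT (written by helper799): unitary matrices and linear isometry equivalences. -/

namespace Pool.Agent.H799.RS.MAT

open Pool.Agent.H741.RS

/-- the star isomorphism between matrices and continuous linear maps -/
noncomputable def se (n : ℕ) : Matrix (Fin n) (Fin n) ℂ ≃⋆* (V n →L[ℂ] V n) :=
  { toFun := fun A => Matrix.toEuclideanCLM (n := Fin n) (𝕜 := ℂ) A
    invFun := fun T => (Matrix.toEuclideanCLM (n := Fin n) (𝕜 := ℂ)).symm T
    left_inv := fun A => (Matrix.toEuclideanCLM (n := Fin n) (𝕜 := ℂ)).symm_apply_apply A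
    right_inv := fun T => (Matrix.toEuclideanCLM (n := Fin n) (𝕜 := ℂ)).apply_symm_apply T
    map_mul' := fun A B => map_mul (Matrix.toEuclideanCLM (n := Fin n) (𝕜 := ℂ)) A B
    map_star' := fun A => map_star (Matrix.toEuclideanCLM (n := Fin n) (𝕜 := ℂ)) A }

theorem t_MAT : S_MAT := by
  intro n
  refine ⟨((Unitary.mapEquiv (se n)).toMulEquiv).trans Unitary.linearIsometryEquiv, fun A z => ?_⟩
  rfl

end Pool.Agent.H799.RS.MAT
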